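import Pool.Agent.Helper82.EN.Stmts2
import Pool.Agent.Helper52.Grid.PTLib

set_option autoImplicit false

/-!
# ENCODING BY TM, module PTH: the hard string is computable in polynomial time
-/

namespace Pool.Agent.Helper82.EN

open Pool.Agent.Helper58 Pool.Agent.Helper53.CL Pool.Agent.Helper52.Grid

section gen
variable {γ : Type} [Enc γ]

theorem pth_div {m k : γ → ℕ} (hm : PTf m) (hk : PTf k) (h0 : ∀ x, 0 < k x) :
    PTf (fun x => m x / k x) := by
  have : PTf (fun x => ((List.range (m x)).filter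
      (fun i => decide ((i + 1) * k x ≤ m x))).length) := by
    fun_prop
  exact this.congr (fun x => (card_div _ _ (h0 x)).symm)

theorem pth_mod {m k : γ → ℕ} (hm : PTf m) (hk : PTf k) (h0 : ∀ x, 0 < k x) :
    PTf (fun x => m x % k x) := by
  have h1 := pth_div hm hk h0
  have : PTf (fun x => m x - k x * (m x / k x)) := by fun_prop
  exact this.congr (fun x => by have := Nat.div_add_mod (m x) (k x); omega)

theorem pth_foldl_mul (c : ℕ) (l : List Unit) (a : ℕ) :
    l.foldl (fun a _ => a * c) a = a * c ^ l.length := by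
  induction l generalizing a with
  | nil => simp
  | cons u l ih => rw [List.foldl_cons, ih, List.length_cons, pow_succ]; ring

theorem pth_pow (c : ℕ) (hc : 1 ≤ c) {e : γ → ℕ} (he : PTf e) (hB : PB (fun x => c ^ e x)) :
    PTf (fun x => c ^ e x) := by
  have h := PTf.foldl (l := fun x => List.replicate (e x) ()) (init := fun _ => 1)
    (step := fun _ a _ => a * c) (B := fun x => 2 * c ^ e x + 1) (by fun_prop) (PTf.const _)
    (by fun_prop) (((PB.const 2).mul hB).add (PB.const 1)) (by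
      intro x i
      rw [pth_foldl_mul, sz_nat, one_mul]
      have h1 : c ^ ((List.replicate (e x) ()).take i).length ≤ c ^ e x := by
        refine Nat.pow_le_pow_right hc ?_
        rw [List.length_take, List.length_replicate]
        exact Nat.min_le_right _ _
      omega)
  refine h.congr (fun x => ?_)
  rw [pth_foldl_mul, List.length_replicate, one_mul]

theorem pth_code {D g : γ → ℕ} (hD : PTf D) (hg : PTf g) (hB : PB (fun x => 3 ^ (4 * D x))) :
    PTf (fun x => if g x % (4 * D x + 3) = 0 then 4 else if g x % (4 * D x + 3) = 1 then 1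
      else if g x % (4 * D x + 3) = 4 * D x + 2 then 2
      else g x / (4 * D x + 3) / 3 ^ (g x % (4 * D x + 3) - 2) % 3 + 1) := by
  have h1 : PTf (fun x => g x % (4 * D x + 3)) :=
    pth_mod hg (by fun_prop) (fun x => by omega)
  have h2 : PTf (fun x => g x / (4 * D x + 3)) :=
    pth_div hg (by fun_prop) (fun x => by omega)
  have h3 : PTf (fun x => 3 ^ (g x % (4 * D x + 3) - 2)) := by
    refine pth_pow 3 (by norm_num) (by fun_prop) (hB.mono fun x => ?_)
    refine Nat.pow_le_pow_right (by norm_num) ?_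
    have := Nat.mod_lt (g x) (show 0 < 4 * D x + 3 by omega)
    omega
  have h4 : PTf (fun x => g x / (4 * D x + 3) / 3 ^ (g x % (4 * D x + 3) - 2)) :=
    pth_div h2 h3 (fun x => by positivity)
  have h5 : PTf (fun x => g x / (4 * D x + 3) / 3 ^ (g x % (4 * D x + 3) - 2) % 3) :=
    ptf_mod h4 3 (by norm_num)
  fun_prop

theorem pth_len {D L i : γ → ℕ} (hD : PTf D) (hL : PTf L) (hi : PTf i)
    (hB : PB (fun x => 3 ^ (4 * D x))) :
    PTf (fun x => (⟨0, D x, L x⟩ : Pa).len (i x)) := by
  have h1 : PTf (fun x => i x / 3) := ptf_div hi 3 (by norm_num)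
  have h2 : PTf (fun x => i x % 3) := ptf_mod hi 3 (by norm_num)
  have h3 := pth_code hD h1 hB
  have h4 : PTf (fun x => (⟨0, D x, L x⟩ : Pa).cls (i x)) := by
    unfold Pa.cls Pa.code
    simp only
    fun_prop
  unfold Pa.len Pa.ell
  simp only
  fun_prop

theorem pth_letter {D L i y : γ → ℕ} (hD : PTf D) (hi : PTf i) (hy : PTf y)
    (hD0 : ∀ x, 0 < D x) (hB : PB (fun x => 3 ^ (4 * D x))) :
    PTf (fun x => ((⟨0, D x, L x⟩ : Pa).letter (i x) (y x)).val) := by
  have h1 : PTf (fun x => y x % D x) := pth_mod hy hD hD0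
  have h2 : PTf (fun x => i x % 3) := ptf_mod hi 3 (by norm_num)
  have h3 : PTf (fun x => i x / (3 * (4 * D x + 3))) :=
    pth_div hi (by fun_prop) (fun x => by omega)
  have h4 : PTf (fun x => 3 ^ ((i x % 3 + 1) * D x + y x % D x)) := by
    refine pth_pow 3 (by norm_num) (by fun_prop) (hB.mono fun x => ?_)
    refine Nat.pow_le_pow_right (by norm_num) ?_
    have h5 := Nat.mod_lt (y x) (hD0 x)
    have h6 : (i x % 3 + 1) * D x ≤ 3 * D x :=
      Nat.mul_le_mul_right _ (by have := Nat.mod_lt (i x) (show 0 < 3 by norm_num); omega)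
    omega
  have h5 : PTf (fun x => i x / (3 * (4 * D x + 3)) /
      3 ^ ((i x % 3 + 1) * D x + y x % D x)) := pth_div h3 h4 (fun x => by positivity)
  have h6 : PTf (fun x => i x / (3 * (4 * D x + 3)) /
      3 ^ ((i x % 3 + 1) * D x + y x % D x) % 3) := ptf_mod h5 3 (by norm_num)
  have h7 : PTf (fun x => i x / (3 * (4 * D x + 3)) /
      3 ^ ((i x % 3 + 1) * D x + y x % D x) % 3 + 2) := by fun_prop
  refine h7.congr (fun x => ?_)
  unfold Pa.letter
  rw [dif_pos (hD0 x)]
  rfl

theorem pth_hard {D L : γ → ℕ} (d : γ → ℕ) (hD : PTf D) (hL : PTf L)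
    (hD0 : ∀ x, 0 < D x) (hB : PB (fun x => 3 ^ (4 * D x))) :
    PTf (fun x => (⟨d x, D x, L x⟩ : Pa).hard.map Fin.val) := by
  have hN : PTf (fun x => 3 ^ (4 * D x)) := pth_pow 3 (by norm_num) (by fun_prop) hB
  have hB1 : PB (fun p : γ × ℕ => 3 ^ (4 * D p.1)) :=
    PB.comp (f := fun p : γ × ℕ => p.1) hB (PB.size.mono fun p => by rw [sz_prod p]; omega)
  have hB2 : PB (fun p : (γ × ℕ) × ℕ => 3 ^ (4 * D p.1.1)) :=
    PB.comp (f := fun p : (γ × ℕ) × ℕ => p.1) hB1 (PB.size.mono fun p => by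
      rw [sz_prod p]; omega)
  have h1 : PTf (fun p : γ × ℕ => (⟨0, D p.1, L p.1⟩ : Pa).len p.2) :=
    pth_len (by fun_prop) (by fun_prop) (by fun_prop) hB1
  have h2 : PTf (fun p : (γ × ℕ) × ℕ => ((⟨0, D p.1.1, L p.1.1⟩ : Pa).letter p.1.2 p.2).val) :=
    pth_letter (D := fun p : (γ × ℕ) × ℕ => D p.1.1) (by fun_prop) (by fun_prop) (by fun_prop)
      (fun p => hD0 _) hB2
  have h3 : PTf (fun p : γ × ℕ => (List.range ((⟨0, D p.1, L p.1⟩ : Pa).len p.2)).map
      fun y => ((⟨0, D p.1, L p.1⟩ : Pa).letter p.2 y).val) := PTf.map (PTf.range h1) h2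
  have h4 : PTf (fun x => List.range (3 * (4 * D x + 3) * 3 ^ (4 * D x))) := by fun_prop
  have h5 := PTf.flatMap (f := fun x i => (List.range ((⟨0, D x, L x⟩ : Pa).len i)).map
      fun y => ((⟨0, D x, L x⟩ : Pa).letter i y).val) h4 h3
  refine h5.congr (fun x => ?_)
  unfold Pa.hard
  rw [List.map_flatMap]
  simp only [List.map_map]
  rfl

end gen

/-! ### the parameters -/

theorem pth_size_fold (m : ℕ) (l : List Unit) (k : ℕ) (hk : k ≤ Nat.size m) :
    l.foldl (fun (s : ℕ × ℕ) _ => if s.1 ≤ m then (2 * s.1, s.2 + 1) else s) (2 ^ k, k) =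
      (2 ^ (min (k + l.length) (Nat.size m)), min (k + l.length) (Nat.size m)) := by
  induction l generalizing k with
  | nil => simp [Nat.min_eq_left hk]
  | cons u l ih =>
    rw [List.foldl_cons]
    by_cases h : 2 ^ k ≤ m
    · have h1 : k < Nat.size m := Nat.lt_size.2 h
      rw [if_pos h, show 2 * 2 ^ k = 2 ^ (k + 1) by rw [pow_succ]; ring, ih (k + 1) h1,
        List.length_cons, show k + 1 + l.length = k + (l.length + 1) by ring]
    · have h1 : k = Nat.size m := by
        have h2 : ¬ k < Nat.size m := fun h2 => h (Nat.lt_size.1 h2)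
        omega
      rw [if_neg h, ih k hk, List.length_cons]
      have h2 : min (k + l.length) (Nat.size m) = Nat.size m := by omega
      have h3 : min (k + (l.length + 1)) (Nat.size m) = Nat.size m := by omega
      rw [h2, h3]

theorem pth_two_pow_size (m : ℕ) : 2 ^ Nat.size m ≤ 2 * m + 1 := by
  rcases Nat.eq_zero_or_pos m with rfl | hm
  · simp
  · have h1 : 0 < Nat.size m := Nat.size_pos.2 hm
    have h2 : 2 ^ (Nat.size m - 1) ≤ m := Nat.lt_size.1 (by omega)
    have h3 : 2 ^ Nat.size m = 2 * 2 ^ (Nat.size m - 1) := by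
      rw [← pow_succ', Nat.sub_add_cancel h1]
    omega

theorem pth_size_le (m : ℕ) : Nat.size m ≤ m := Nat.size_le.2 Nat.lt_two_pow_self

theorem pth_lg : PTf lg := by
  have h := PTf.foldl (γ := ℕ) (l := fun m => List.replicate m ()) (init := fun _ => (1, 0))
    (step := fun m (s : ℕ × ℕ) _ => if s.1 ≤ m then (2 * s.1, s.2 + 1) else s)
    (B := fun m => 3 * sz m + 20) (by fun_prop) (PTf.const _) (by fun_prop)
    (((PB.const 3).mul PB.size).add (PB.const 20)) (by
      intro m i
      have h0 := pth_size_fold m ((List.replicate m ()).take i) 0 (Nat.zero_le _)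
      rw [pow_zero] at h0
      rw [h0, sz_pair, sz_nat, sz_nat, sz_nat]
      have h1 : 2 ^ (min (0 + ((List.replicate m ()).take i).length) (Nat.size m)) ≤
          2 ^ Nat.size m := Nat.pow_le_pow_right (by norm_num) (Nat.min_le_right _ _)
      have h2 := pth_two_pow_size m
      have h3 := pth_size_le m
      have h4 := Nat.min_le_right (0 + ((List.replicate m ()).take i).length) (Nat.size m)
      omega)
  have h1 : PTf (fun m : ℕ => ((List.replicate m ()).foldl
      (fun (s : ℕ × ℕ) _ => if s.1 ≤ m then (2 * s.1, s.2 + 1) else s) (1, 0)).2 + 1) := by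
    fun_prop
  refine h1.congr (fun m => ?_)
  have h0 := pth_size_fold m (List.replicate m ()) 0 (Nat.zero_le _)
  rw [pow_zero] at h0
  rw [h0, List.length_replicate, Nat.zero_add, Nat.min_eq_right (pth_size_le m)]
  rfl

theorem pth_PB (c k : ℕ) : PB (fun m : ℕ => c ^ (k * lg m)) := by
  refine (((PB.const 2).mul (PB.size (α := ℕ))).pow (c * k)).mono (fun m => ?_)
  have h1 : c ≤ 2 ^ c := Nat.lt_two_pow_self.le
  have h2 : 2 ^ lg m ≤ 2 * sz m := by
    have := pth_two_pow_size m
    rw [lg, pow_succ, sz_nat]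
    omega
  calc c ^ (k * lg m) ≤ (2 ^ c) ^ (k * lg m) := Nat.pow_le_pow_left h1 _
    _ = (2 ^ lg m) ^ (c * k) := by
        rw [← pow_mul, ← pow_mul]
        congr 1
        ring
    _ ≤ (2 * sz m) ^ (c * k) := Nat.pow_le_pow_left h2 _

theorem pth_pow_lg (c k : ℕ) (hc : 1 ≤ c) : PTf (fun m : ℕ => c ^ (k * lg m)) := by
  have h := pth_lg
  exact pth_pow c hc (by fun_prop) (pth_PB c k)

theorem pth_all (a b : ℕ) (hb : 0 < b) : PTf (fun m : ℕ => (⟨a * lg m, b * lg m,
    4 * (2 ^ lg m * 3 ^ (b * lg m + 2 * (3 * (a * lg m)) + 2) * (b * lg m))⟩ :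
      Pa).hard.map Fin.val) := by
  have h := pth_lg
  have h2 := pth_pow_lg 2 1 (by norm_num)
  have h3 := pth_pow_lg 3 (b + 6 * a) (by norm_num)
  have hL : PTf (fun m : ℕ => 4 * (2 ^ (1 * lg m) * (3 ^ ((b + 6 * a) * lg m) * 9) *
      (b * lg m))) := by fun_prop
  have hL' : PTf (fun m : ℕ => 4 * (2 ^ lg m * 3 ^ (b * lg m + 2 * (3 * (a * lg m)) + 2) *
      (b * lg m))) := by
    refine hL.congr (fun m => ?_)
    rw [one_mul, show b * lg m + 2 * (3 * (a * lg m)) + 2 = (b + 6 * a) * lg m + 2 by ring,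
      pow_add]
    norm_num
  exact pth_hard (γ := ℕ) (D := fun m => b * lg m) (fun m => a * lg m) (by fun_prop) hL'
    (fun m => by
      have h5 : 0 < lg m := Nat.succ_pos _
      exact Nat.mul_pos hb h5)
    ((pth_PB 3 (4 * b)).mono fun m => le_of_eq (by rw [mul_assoc]))

theorem st_PTH : ST_PTH := pth_all 360 240000 (by norm_num)

end Pool.Agent.Helper82.EN
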